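import Pool.Agent.W526.LL.Stm

set_option autoImplicit false

namespace W54.LLSpan

open Pool.Agent.W526.LL WithZero Topology

/-! ### quotient representations -/

section Quot

variable {G V : Type} [Group G] [AddCommGroup V] [Module ℂ V]

/-- the representation on the quotient by an invariant subspace -/
noncomputable def qRep (ρ : Representation ℂ G V) (L : Submodule ℂ V)
    (hL : ∀ g, L ≤ L.comap (ρ g)) : Representation ℂ G (V ⧸ L) where
  toFun g := L.mapQ L (ρ g) (hL g)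
  map_one' := by
    ext v
    simp
  map_mul' a b := by
    ext v
    simp

lemma qRep_mk (ρ : Representation ℂ G V) (L : Submodule ℂ V)
    (hL : ∀ g, L ≤ L.comap (ρ g)) (g : G) (v : V) :
    qRep ρ L hL g (L.mkQ v) = L.mkQ (ρ g v) := rfl

end Quot

lemma rt_mul (a b : GA) (F : GA → ℂ) : rt GA (a * b) F = rt GA a (rt GA b F) := by
  rw [map_mul]; rfl

/-- the constants -/
noncomputable def Lc : Submodule ℂ (GA → ℂ) := Submodule.span ℂ {fun _ => (1 : ℂ)}

lemma rt_one_fun (g : GA) : rt GA g (fun _ => (1 : ℂ)) = fun _ => (1 : ℂ) := rfl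

lemma Lc_le (g : GA) : Lc ≤ Lc.comap (rt GA g) := by
  unfold Lc
  rw [Submodule.span_le]
  rintro x rfl
  show rt GA g (fun _ => (1 : ℂ)) ∈ _
  rw [rt_one_fun]
  exact Submodule.subset_span rfl

lemma const_mem (c : ℂ) : (fun _ : GA => c) ∈ Lc := by
  have : (fun _ : GA => c) = c • (fun _ : GA => (1 : ℂ)) := by
    ext; simp
  rw [this]
  exact Submodule.smul_mem _ _ (Submodule.subset_span rfl)

/-- the action of `GL₂(K_∞)` -/
noncomputable def R : Representation ℂ (GL (Fin 2) (Kv none)) (GA → ℂ) :=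
  (rt GA).comp (inj none)

lemma R_apply (k : GL (Fin 2) (Kv none)) (F : GA → ℂ) : R k F = rt GA (inj none k) F := rfl

/-- the action on functions modulo constants -/
noncomputable def R' : Representation ℂ (GL (Fin 2) (Kv none)) ((GA → ℂ) ⧸ Lc) :=
  qRep R Lc (fun g => Lc_le (inj none g))

/-- the map induced by right translation -/
noncomputable def Ac (c : GA) : ((GA → ℂ) ⧸ Lc) →ₗ[ℂ] ((GA → ℂ) ⧸ Lc) :=
  Lc.mapQ Lc (rt GA c) (Lc_le c)

lemma Ac_mk (c : GA) (F : GA → ℂ) : Ac c (Lc.mkQ F) = Lc.mkQ (rt GA c F) := rfl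

lemma R'_mk (k : GL (Fin 2) (Kv none)) (F : GA → ℂ) :
    R' k (Lc.mkQ F) = Lc.mkQ (rt GA (inj none k) F) := rfl

lemma Ac_comm {c : GA} (hc : ∀ h, c * inj none h = inj none h * c)
    (k : GL (Fin 2) (Kv none)) (v : (GA → ℂ) ⧸ Lc) : Ac c (R' k v) = R' k (Ac c v) := by
  obtain ⟨F, rfl⟩ := Lc.mkQ_surjective v
  rw [R'_mk, Ac_mk, Ac_mk, R'_mk, ← rt_mul, ← rt_mul, hc]

/-- the set of induced maps -/
def SS (s : Finset GA) : Set (((GA → ℂ) ⧸ Lc) →ₗ[ℂ] ((GA → ℂ) ⧸ Lc)) := {A | ∃ c ∈ s, A = Ac c}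

lemma SS_finite (s : Finset GA) : (SS s).Finite := by
  have : SS s = Ac '' (s : Set GA) := by
    ext A
    constructor
    · rintro ⟨c, hc, rfl⟩; exact ⟨c, hc, rfl⟩
    · rintro ⟨c, hc, rfl⟩; exact ⟨c, hc, rfl⟩
  rw [this]
  exact s.finite_toSet.image _

lemma bigSpan_mono {s t : Finset GA} (h : s ⊆ t) (y : (GA → ℂ) ⧸ Lc) :
    bigSpan R' (SS s) y ≤ bigSpan R' (SS t) y := by
  unfold bigSpan
  apply Submodule.span_mono
  rintro v ⟨A, ⟨c, hc, rfl⟩, g, rfl⟩
  exact ⟨Ac c, ⟨c, h hc, rfl⟩, g, rfl⟩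

lemma span_struct (f h : GA → ℂ) (hh : h ∈ Submodule.span ℂ {h | ∃ g, h = rt GA g f}) :
    ∃ s : Finset GA, (∀ c ∈ s, ∀ k, c * inj none k = inj none k * c) ∧
      ∀ k, Lc.mkQ (rt GA (inj none k) h) ∈ bigSpan R' (SS s) (Lc.mkQ f) := by
  classical
  induction hh using Submodule.span_induction with
  | mem x hx =>
    obtain ⟨g, rfl⟩ := hx
    obtain ⟨c, -, hc, hg⟩ := exists_decomp none g
    refine ⟨{c}, ?_, ?_⟩
    · intro c' hc' k
      rw [Finset.mem_singleton] at hc'
      rw [hc']; exact hc k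
    · intro k
      apply Submodule.subset_span
      refine ⟨Ac c, ⟨c, Finset.mem_singleton_self c, rfl⟩, k * g none, ?_⟩
      rw [R'_mk, Ac_mk, ← rt_mul, ← rt_mul, (inj none).map_mul, ← mul_assoc, hc k, mul_assoc, ← hg]
  | zero =>
    refine ⟨∅, by simp, fun k => ?_⟩
    rw [map_zero, map_zero]
    exact Submodule.zero_mem _
  | add x y _ _ hx hy =>
    obtain ⟨s, hs, hs'⟩ := hx
    obtain ⟨t, ht, ht'⟩ := hy
    refine ⟨s ∪ t, ?_, ?_⟩
    · intro c hc k
      rcases Finset.mem_union.mp hc with h | h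
      · exact hs c h k
      · exact ht c h k
    · intro k
      rw [map_add, map_add]
      exact Submodule.add_mem _ (bigSpan_mono Finset.subset_union_left _ (hs' k))
        (bigSpan_mono Finset.subset_union_right _ (ht' k))
  | smul a x _ hx =>
    obtain ⟨s, hs, hs'⟩ := hx
    refine ⟨s, hs, fun k => ?_⟩
    rw [map_smul, map_smul]
    exact Submodule.smul_mem _ _ (hs' k)

lemma isSt {f : GA → ℂ} {C : ℂ}
    (hiw : ∀ g, ∀ k ∈ Iw (Kv none), f (g * inj none k) = f g)
    (hw : ∀ g, f (g * inj none Dinf.w) = - f g - C)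
    (har : ∀ g, ∑ t ∈ Dinf.T, f (g * inj none (lo t)) + f (g * inj none ws) = -C) :
    IsSt Dinf R' (Lc.mkQ f) where
  iw k hk := by
    rw [R'_mk]
    congr 1
    ext g
    exact hiw g k hk
  w := by
    rw [R'_mk, ← map_neg, Submodule.mkQ_apply, Submodule.mkQ_apply, Submodule.Quotient.eq]
    have : rt GA (inj none Dinf.w) f - -f = fun _ => -C := by
      ext g
      show f (g * inj none Dinf.w) - -(f g) = -C
      rw [hw]; ring
    rw [this]
    exact const_mem _
  har := by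
    have h1 : ∑ t ∈ Dinf.T, R' (lo t) (Lc.mkQ f) + R' ws (Lc.mkQ f) =
        Lc.mkQ (∑ t ∈ Dinf.T, rt GA (inj none (lo t)) f + rt GA (inj none ws) f) := by
      rw [map_add, map_sum]
      rfl
    rw [h1, Submodule.mkQ_apply, Submodule.Quotient.mk_eq_zero]
    have : ∑ t ∈ Dinf.T, rt GA (inj none (lo t)) f + rt GA (inj none ws) f = fun _ => -C := by
      ext g
      rw [Pi.add_apply, Finset.sum_apply]
      exact har g
    rw [this]
    exact const_mem _

lemma leftInv_span (f h : GA → ℂ) (hf : LeftInv f)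
    (hh : h ∈ Submodule.span ℂ {h | ∃ g, h = rt GA g f}) : LeftInv h := by
  induction hh using Submodule.span_induction with
  | mem x hx =>
    obtain ⟨g0, rfl⟩ := hx
    intro γ g g' hg
    rw [rt_apply, rt_apply]
    refine hf γ _ _ fun p => ?_
    rw [mul_apply, mul_apply, hg, mul_assoc]
  | zero => intro γ g g' _; rfl
  | add x y _ _ hx hy =>
    intro γ g g' hg
    rw [Pi.add_apply, Pi.add_apply, hx γ g g' hg, hy γ g g' hg]
  | smul a x _ hx =>
    intro γ g g' hg
    rw [Pi.smul_apply, Pi.smul_apply, hx γ g g' hg]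

lemma rightSm_span (hopen : S_open) (f h : GA → ℂ) (hf : RightSm f)
    (hh : h ∈ Submodule.span ℂ {h | ∃ g, h = rt GA g f}) : RightSm h := by
  have hfact : Fact (∀ p : Pl, IsOpen (maxK (Kv p) : Set (GL (Fin 2) (Kv p)))) := by
    constructor
    intro p
    obtain ⟨a, ha⟩ := exists_unif_K p
    exact (hopen (Kv p) (cmap p a) ha).2.2.1
  have hTG : IsTopologicalGroup GA := inferInstance
  induction hh using Submodule.span_induction with
  | mem x hx =>
    obtain ⟨g0, rfl⟩ := hx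
    obtain ⟨U, hU, hU'⟩ := hf
    refine ⟨U.comap (MulAut.conj g0⁻¹).toMonoidHom, ?_, ?_⟩
    · have hc : Continuous (fun u : GA => g0⁻¹ * u * g0⁻¹⁻¹) := by fun_prop
      exact hU.preimage hc
    · intro u hu g
      have hu' : g0⁻¹ * u * g0⁻¹⁻¹ ∈ U := hu
      rw [rt_apply, rt_apply]
      have := hU' _ hu' (g * g0)
      rw [← this]
      congr 1
      group
  | zero => exact ⟨⊤, isOpen_univ, fun _ _ _ => rfl⟩
  | add x y _ _ hx hy =>
    obtain ⟨U, hU, hU'⟩ := hx
    obtain ⟨W, hW, hW'⟩ := hy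
    refine ⟨U ⊓ W, hU.inter hW, fun u hu g => ?_⟩
    rw [Pi.add_apply, Pi.add_apply, hU' u hu.1, hW' u hu.2]
  | smul a x _ hx =>
    obtain ⟨U, hU, hU'⟩ := hx
    refine ⟨U, hU, fun u hu g => ?_⟩
    rw [Pi.smul_apply, Pi.smul_apply, hU' u hu]

theorem main (hC : S_C) (hopen : S_open) : S_span := by
  intro f C hl hr hiw hw har h hh
  refine ⟨leftInv_span f h hl hh, rightSm_span hopen f h hr hh, none, ?_⟩
  intro U hU
  obtain ⟨s, hs, hs'⟩ := span_struct f h hh
  obtain ⟨n, hn⟩ := (hopen (Kv none) Dinf.ϖ Dinf.hϖ).2.2.2 U hU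
  have hst := isSt hiw hw har
  have key := hC (Kv none) Dinf ((GA → ℂ) ⧸ Lc) R' (Lc.mkQ f) hst (SS s) (by
    rintro A ⟨c, hc, rfl⟩ k v
    exact Ac_comm (hs c hc) k v)
  obtain ⟨P, hPf, hP⟩ := key.2.2.1 (SS_finite s) n
  have h1 : (fixedIn none U (locSpan none h)).map Lc.mkQ ≤ P := by
    rintro _ ⟨F, ⟨hF1, hF2⟩, rfl⟩
    apply hP
    · have h2 : locSpan none h ≤ (bigSpan R' (SS s) (Lc.mkQ f)).comap Lc.mkQ := by
        unfold locSpan
        rw [Submodule.span_le]
        rintro x ⟨k, rfl⟩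
        exact hs' k
      exact h2 hF1
    · intro k hk
      rw [R'_mk, hF2 k (hn hk)]
  have h3 : (fixedIn none U (locSpan none h)).FG := by
    apply Submodule.fg_of_fg_map_of_fg_inf_ker Lc.mkQ
    · have : FiniteDimensional ℂ ((fixedIn none U (locSpan none h)).map Lc.mkQ) :=
        Submodule.finiteDimensional_of_le h1
      exact Submodule.fg_iff_finiteDimensional _ |>.mpr this
    · rw [Submodule.ker_mkQ]
      have h4 : FiniteDimensional ℂ Lc := by
        unfold Lc
        exact FiniteDimensional.span_singleton ℂ _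
      have : FiniteDimensional ℂ (fixedIn none U (locSpan none h) ⊓ Lc : Submodule ℂ (GA → ℂ)) :=
        Submodule.finiteDimensional_of_le inf_le_right
      exact Submodule.fg_iff_finiteDimensional _ |>.mpr this
  exact Submodule.fg_iff_finiteDimensional _ |>.mp h3

end W54.LLSpan
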