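import Pool.Agent.W997.NL.Stm

set_option autoImplicit false

namespace Pool.Agent.W54.NLNUM

open Filter Topology Pool.Agent.W997.NL

theorem ev_conds (A : ℕ) (hA : 1 ≤ A) : ∀ᶠ R : ℕ in atTop,
    ((2 : ℝ) ^ 30 ≤ R) ∧ ((A + 2 : ℝ) * Real.log R + 2 ≤ (R : ℝ) / 20) ∧
    (80 * 2 ^ (A + 1) * (1 + 2 * A * Real.log R) ^ 2 ≤ (R : ℝ)) ∧
    (4 * 1024 * 2 ^ (A + 3) ≤ (R : ℝ)) := by
  have hA0 : (0 : ℝ) < A := by exact_mod_cast hA
  have e1 : ∀ᶠ x : ℝ in atTop, (2 : ℝ) ^ 30 ≤ x := eventually_ge_atTop _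
  have e2 : ∀ᶠ x : ℝ in atTop, (A + 2 : ℝ) * Real.log x + 2 ≤ x / 20 := by
    have h1 := Real.isLittleO_log_id_atTop.def (c := 1 / (40 * (A + 2))) (by positivity)
    filter_upwards [h1, eventually_ge_atTop (80 : ℝ)] with x hx hx80
    have hx0 : 0 < x := by linarith
    have h2 : Real.log x ≤ 1 / (40 * (A + 2)) * x := by
      refine (le_abs_self _).trans ?_
      have := hx
      rw [Real.norm_eq_abs, id, Real.norm_eq_abs, abs_of_pos hx0] at this
      exact this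
    have h3 : (A + 2 : ℝ) * Real.log x ≤ x / 40 := by
      calc (A + 2 : ℝ) * Real.log x ≤ (A + 2 : ℝ) * (1 / (40 * (A + 2)) * x) :=
            mul_le_mul_of_nonneg_left h2 (by positivity)
        _ = x / 40 := by field_simp
    linarith
  have e3 : ∀ᶠ x : ℝ in atTop, 80 * 2 ^ (A + 1) * (1 + 2 * A * Real.log x) ^ 2 ≤ x := by
    have h1 := (Real.isLittleO_pow_log_id_atTop (n := 2)).def
      (c := 1 / (2 * (80 * 2 ^ (A + 1) * (8 * (A : ℝ) ^ 2)))) (by positivity)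
    filter_upwards [h1, eventually_ge_atTop (4 * (80 * 2 ^ (A + 1)) : ℝ),
      eventually_gt_atTop (0 : ℝ)] with x hx hx80 hx0
    have h2 : Real.log x ^ 2 ≤ 1 / (2 * (80 * 2 ^ (A + 1) * (8 * (A : ℝ) ^ 2))) * x := by
      refine (le_abs_self _).trans ?_
      have := hx
      rw [Real.norm_eq_abs, id, Real.norm_eq_abs, abs_of_pos hx0] at this
      exact this
    have h3 : (1 + 2 * A * Real.log x) ^ 2 ≤ 2 + 8 * (A : ℝ) ^ 2 * Real.log x ^ 2 := by
      nlinarith [sq_nonneg (1 - 2 * A * Real.log x)]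
    calc 80 * 2 ^ (A + 1) * (1 + 2 * A * Real.log x) ^ 2
        ≤ 80 * 2 ^ (A + 1) * (2 + 8 * (A : ℝ) ^ 2 * Real.log x ^ 2) :=
          mul_le_mul_of_nonneg_left h3 (by positivity)
      _ = 2 * (80 * 2 ^ (A + 1)) + (80 * 2 ^ (A + 1) * (8 * (A : ℝ) ^ 2)) * Real.log x ^ 2 := by ring
      _ ≤ 2 * (80 * 2 ^ (A + 1)) + (80 * 2 ^ (A + 1) * (8 * (A : ℝ) ^ 2)) *
          (1 / (2 * (80 * 2 ^ (A + 1) * (8 * (A : ℝ) ^ 2))) * x) := by
          gcongr
      _ = 2 * (80 * 2 ^ (A + 1)) + x / 2 := by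
          congr 1
          field_simp
      _ ≤ x := by linarith
  have e4 : ∀ᶠ x : ℝ in atTop, 4 * 1024 * 2 ^ (A + 3) ≤ x := eventually_ge_atTop _
  exact tendsto_natCast_atTop_atTop.eventually (e1.and (e2.and (e3.and e4)))

theorem seven (A l R : ℕ) (r L X m N : ℝ) (hr0 : 0 < r) (hL : L = (2 : ℝ) ^ l) (hL0 : 0 < L)
    (hl2' : L ≤ 2 * r ^ A)
    (hm0 : 0 < m) (hlog2a : (1 / 2 : ℝ) ≤ Real.log 2) (hlogr : 0 ≤ Real.log r)
    (hlL : (l : ℝ) * Real.log 2 ≤ Real.log 2 + A * Real.log r) (hXlo : r / 2 ≤ X)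
    (c3 : 80 * 2 ^ (A + 1) * (1 + 2 * A * Real.log r) ^ 2 ≤ r) (hN : N = m * L) :
    40 * (l : ℝ) ^ 2 * m * 4 ^ l ≤ N * X ^ (A + 1) := by
  have h1 : (l : ℝ) ≤ 1 + 2 * A * Real.log r := by
    have h3 : 0 ≤ (A : ℝ) * Real.log r := by positivity
    have h2 : (l : ℝ) * Real.log 2 ≤ (1 + 2 * A * Real.log r) * Real.log 2 := by
      refine hlL.trans ?_
      have h4 : 2 * ((A : ℝ) * Real.log r) * (1 / 2) ≤ 2 * ((A : ℝ) * Real.log r) * Real.log 2 :=
        mul_le_mul_of_nonneg_left hlog2a (by positivity)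
      linarith
    exact le_of_mul_le_mul_right h2 (by linarith)
  have h2 : (l : ℝ) ^ 2 ≤ (1 + 2 * A * Real.log r) ^ 2 :=
    pow_le_pow_left₀ (Nat.cast_nonneg _) h1 _
  have h0 : 0 ≤ (1 + 2 * A * Real.log r) ^ 2 := sq_nonneg _
  have h3 : 40 * (l : ℝ) ^ 2 * L ≤ X ^ (A + 1) := by
    have h4 : (r / 2) ^ (A + 1) ≤ X ^ (A + 1) := pow_le_pow_left₀ (by positivity) hXlo _
    refine le_trans ?_ h4
    have h5 : 40 * (l : ℝ) ^ 2 * L ≤ 40 * (1 + 2 * A * Real.log r) ^ 2 * (2 * r ^ A) := by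
      apply mul_le_mul _ hl2' hL0.le (mul_nonneg (by norm_num) h0)
      exact mul_le_mul_of_nonneg_left h2 (by norm_num)
    refine h5.trans ?_
    rw [div_pow, le_div_iff₀ (by positivity)]
    have e1 : 40 * (1 + 2 * A * Real.log r) ^ 2 * (2 * r ^ A) * 2 ^ (A + 1)
        = (80 * 2 ^ (A + 1) * (1 + 2 * A * Real.log r) ^ 2) * r ^ A := by ring
    have e2 : r ^ (A + 1) = r * r ^ A := by ring
    rw [e1, e2]
    exact mul_le_mul_of_nonneg_right c3 (by positivity)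
  have h4 : (4 : ℝ) ^ l = L * L := by
    rw [hL, ← mul_pow]; norm_num
  have e3 : 40 * (l : ℝ) ^ 2 * m * (L * L) = (m * L) * (40 * (l : ℝ) ^ 2 * L) := by ring
  rw [h4, hN, e3]
  exact mul_le_mul_of_nonneg_left h3 (by positivity)

theorem main : S_NUM := by
  intro A hA
  obtain ⟨i₀, hi₀⟩ := Filter.eventually_atTop.1 (ev_conds A hA)
  refine ⟨i₀ + 100, ?_⟩
  intro i l n R hi hR hl1 hl2 hn N hN
  obtain ⟨c1, c2, c3, c4⟩ := hi₀ R (by omega)
  have hA0 : (0 : ℝ) < A := by exact_mod_cast hA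
  set r : ℝ := (R : ℝ) with hr
  set L : ℝ := (2 : ℝ) ^ l with hL
  set m : ℝ := (n : ℝ) with hm
  have hr1 : (1 : ℝ) ≤ r := le_trans (by norm_num) c1
  have hr0 : (0 : ℝ) < r := by linarith
  have hlogr : 0 ≤ Real.log r := Real.log_nonneg hr1
  have hL0 : 0 < L := by positivity
  have hl1' : r ^ A ≤ L := by rw [hr, hL]; exact_mod_cast hl1
  have hl2' : L ≤ 2 * r ^ A := by rw [hr, hL]; exact_mod_cast hl2
  have hn' : m + 33 * 2 ^ R = (r ^ 2 + 2 * r) * 2 ^ R := by rw [hm, hr]; exact_mod_cast hn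
  have h2R : (0 : ℝ) < 2 ^ R := by positivity
  have hm1 : (2 : ℝ) ^ R ≤ m := by
    have : m = (r ^ 2 + 2 * r - 33) * 2 ^ R := by linarith
    rw [this]
    have h5 : (1 : ℝ) ≤ r ^ 2 + 2 * r - 33 := by
      have : (100 : ℝ) ≤ r := le_trans (by norm_num) c1
      nlinarith
    nlinarith
  have hm2 : m ≤ 2 * r ^ 2 * 2 ^ R := by
    have : m = (r ^ 2 + 2 * r - 33) * 2 ^ R := by linarith
    rw [this]
    have h5 : r ^ 2 + 2 * r - 33 ≤ 2 * r ^ 2 := by
      have : (100 : ℝ) ≤ r := le_trans (by norm_num) c1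
      nlinarith
    exact mul_le_mul_of_nonneg_right h5 h2R.le
  have hm0 : 0 < m := lt_of_lt_of_le h2R hm1
  have hm1' : 1 ≤ m := le_trans (one_le_pow₀ (by norm_num)) hm1
  have hN0 : 0 < N := by rw [hN]; positivity
  have hlog2a : (1 / 2 : ℝ) ≤ Real.log 2 := by
    have := Real.log_two_gt_d9; linarith
  have hlog2b : Real.log 2 ≤ 0.7 := by
    have := Real.log_two_lt_d9; linarith
  have hlog2c : Real.log 2 ≤ 0.6932 := by
    have := Real.log_two_lt_d9; linarith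
  have hlogn0 : 0 ≤ Real.log m := Real.log_nonneg hm1'
  have hX : Real.log N = Real.log m + l * Real.log 2 := by
    rw [hN, Real.log_mul hm0.ne' (by positivity), hL, Real.log_pow]
  have hXlo : r / 2 ≤ Real.log N := by
    rw [hX]
    have h1 : Real.log ((2 : ℝ) ^ R) ≤ Real.log m := Real.log_le_log h2R hm1
    rw [Real.log_pow] at h1
    have h2 : 0 ≤ (l : ℝ) * Real.log 2 := by positivity
    have h3 : r * (1 / 2) ≤ r * Real.log 2 := mul_le_mul_of_nonneg_left hlog2a hr0.le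
    linarith
  have hlL : (l : ℝ) * Real.log 2 ≤ Real.log 2 + A * Real.log r := by
    have h1 : Real.log L ≤ Real.log (2 * r ^ A) := Real.log_le_log hL0 hl2'
    rw [hL, Real.log_pow, Real.log_mul (by norm_num) (by positivity), Real.log_pow] at h1
    exact h1
  have hlogn : Real.log m ≤ Real.log 2 + 2 * Real.log r + r * Real.log 2 := by
    have h1 : Real.log m ≤ Real.log (2 * r ^ 2 * 2 ^ R) := Real.log_le_log hm0 hm2
    rw [Real.log_mul (by positivity) (by positivity), Real.log_mul (by norm_num) (by positivity),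
      Real.log_pow, Real.log_pow] at h1
    exact_mod_cast h1
  have hXhi : Real.log N ≤ r := by
    rw [hX]
    have h3 : r * Real.log 2 ≤ r * 0.6932 := mul_le_mul_of_nonneg_left hlog2c hr0.le
    nlinarith
  set X : ℝ := Real.log N with hXdef
  have hX0 : 0 < X := lt_of_lt_of_le (by positivity) hXlo
  have hi3 : 3 ≤ i := by omega
  refine ⟨hi3, ?_, ?_, ?_, ?_, ?_, ?_⟩
  · rw [le_div_iff₀ (by positivity)]
    have h1 : m * l * Real.log 2 + Real.log m ≤ m * r := by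
      have h2 : m * ((l : ℝ) * Real.log 2) ≤ m * (Real.log 2 + A * Real.log r) :=
        mul_le_mul_of_nonneg_left hlL hm0.le
      have h3 : Real.log m ≤ m := (Real.log_le_sub_one_of_pos hm0).trans (by linarith)
      have h4 : Real.log 2 + A * Real.log r + 1 ≤ r := by
        nlinarith
      have h5 : m * (Real.log 2 + A * Real.log r + 1) ≤ m * r :=
        mul_le_mul_of_nonneg_left h4 hm0.le
      nlinarith
    have h0 : 0 ≤ m * l * Real.log 2 + Real.log m := by positivity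
    calc (m * l * Real.log 2 + Real.log m) * X ^ (A - 1)
        ≤ (m * r) * r ^ (A - 1) := by
          apply mul_le_mul h1 _ (by positivity) (by positivity)
          exact pow_le_pow_left₀ hX0.le hXhi _
      _ = m * r ^ A := by
          obtain ⟨B, rfl⟩ : ∃ B, A = B + 1 := ⟨A - 1, by omega⟩
          rw [Nat.add_sub_cancel, pow_succ]; ring
      _ ≤ m * L := mul_le_mul_of_nonneg_left hl1' hm0.le
      _ = N := hN.symm
  · rw [le_div_iff₀ (by positivity)]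
    calc m * X ^ A ≤ m * r ^ A :=
          mul_le_mul_of_nonneg_left (pow_le_pow_left₀ hX0.le hXhi _) hm0.le
      _ ≤ m * L := mul_le_mul_of_nonneg_left hl1' hm0.le
      _ = N := hN.symm
  · rw [div_le_iff₀ (by positivity)]
    have h1 : N ≤ (2 * r ^ 2 * 2 ^ R) * (2 * r ^ A) := by
      rw [hN]; exact mul_le_mul hm2 hl2' hL0.le (by positivity)
    have h2 : (2 : ℝ) ^ R = 2 ^ (i - 3) * 2 ^ 9 := by
      rw [← pow_add]; congr 1; omega
    have h3 : (r / 2) ^ (A + 3) ≤ X ^ (A + 3) := pow_le_pow_left₀ (by positivity) hXlo _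
    have h4 : (2 : ℝ) ^ (i - 3) * (1 / 2) * (r / 2) ^ (A + 3) ≤ 2 ^ (i - 3) * Real.log 2 * X ^ (A + 3) := by
      apply mul_le_mul _ h3 (by positivity) (by positivity)
      exact mul_le_mul_of_nonneg_left hlog2a (by positivity)
    refine h1.trans (le_trans ?_ h4)
    rw [h2, div_pow]
    have h5 : r ^ (A + 3) = r ^ (A + 2) * r := pow_succ _ _
    have h6 : r ^ (A + 2) = r ^ A * r ^ 2 := pow_add _ _ _
    have h7 : (4 * 1024 * 2 ^ (A + 3)) * (r ^ (A + 2) * (2 : ℝ) ^ (i - 3)) ≤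
        r * (r ^ (A + 2) * (2 : ℝ) ^ (i - 3)) := mul_le_mul_of_nonneg_right c4 (by positivity)
    have h8 : (2 : ℝ) ^ (i - 3) * (1 / 2) * (r ^ (A + 3) / 2 ^ (A + 3)) =
        (r * (r ^ (A + 2) * (2 : ℝ) ^ (i - 3))) / (2 * 2 ^ (A + 3)) := by
      rw [h5]; field_simp
    rw [h8, le_div_iff₀ (by positivity)]
    refine le_trans (le_of_eq ?_) h7
    rw [h6]; ring
  · have h1 : X ≤ 2 ^ (2 ^ (i - 3)) := by
      refine hXhi.trans ?_
      have h2 : R ≤ 2 ^ (2 ^ (i - 3)) := by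
        have h3 : i - 3 + 1 ≤ 2 ^ (i - 3) := Nat.lt_pow_self (by norm_num)
        have h4 : 2 ^ (i - 3 + 1) ≤ 2 ^ (2 ^ (i - 3)) := Nat.pow_le_pow_right (by norm_num) h3
        have h5 : 2 ^ (i - 3 + 1) = 4 * 2 ^ (i - 4) := by
          have : i - 3 + 1 = (i - 4) + 2 := by omega
          rw [this, pow_add]; ring
        have h6 : i - 4 < 2 ^ (i - 4) := Nat.lt_pow_self (by norm_num)
        omega
      rw [hr]; exact_mod_cast h2
    rw [one_div, inv_mul_eq_div, le_div_iff₀ hX0, one_mul]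
    exact h1
  · have h1 : (2 : ℝ) ^ 23 * r ^ 4 * 4 ≤ X ^ 5 := by
      have h2 : (r / 2) ^ 5 ≤ X ^ 5 := pow_le_pow_left₀ (by positivity) hXlo _
      refine le_trans ?_ h2
      have h3 : (2 : ℝ) ^ 30 * r ^ 4 ≤ r * r ^ 4 := mul_le_mul_of_nonneg_right c1 (by positivity)
      rw [div_pow, le_div_iff₀ (by positivity)]
      calc (2 : ℝ) ^ 23 * r ^ 4 * 4 * 2 ^ 5 = 2 ^ 30 * r ^ 4 := by ring
        _ ≤ r * r ^ 4 := h3
        _ = r ^ 5 := by ring
    have h4 : N / X ^ 6 = 1 / X * (N / X ^ 5) := by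
      field_simp
    rw [h4]
    apply mul_le_mul_of_nonneg_left _ (by positivity)
    exact div_le_div_of_nonneg_left hN0.le (by positivity) h1
  · exact seven A l R r L X m N hr0 hL hL0 hl2' hm0 hlog2a hlogr hlL hXlo c3 hN

end Pool.Agent.W54.NLNUM
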