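import Pool.Agent.W792.GK.Stm

open MeasureTheory Matrix
open scoped ComplexOrder

namespace Pool.Agent.W54.GKGr

open Pool.Agent.W792.GK

variable {n : Type} [Fintype n] [DecidableEq n]

/-- `H - z` is injective for nonreal `z` -/
lemma det_ne {H : Matrix n n ℂ} (hH : H.IsHermitian) {z : ℂ} (hz : z.im ≠ 0) :
    (H - z • (1 : Matrix n n ℂ)).det ≠ 0 := by
  intro h
  obtain ⟨u, hu0, hu⟩ := Matrix.exists_mulVec_eq_zero_iff.mpr h
  have h1 : H *ᵥ u = z • u := by
    rw [Matrix.sub_mulVec, Matrix.smul_mulVec, Matrix.one_mulVec, sub_eq_zero] at hu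
    exact hu
  have h2 : star u ⬝ᵥ (H *ᵥ u) = z * (star u ⬝ᵥ u) := by
    rw [h1, dotProduct_smul, smul_eq_mul]
  have h3 : star (star u ⬝ᵥ (H *ᵥ u)) = star u ⬝ᵥ (H *ᵥ u) := by
    rw [← Matrix.star_dotProduct_star, star_star, Matrix.star_mulVec, hH.eq, ← dotProduct_mulVec]
  have h4 : star (star u ⬝ᵥ u) = star u ⬝ᵥ u := by
    rw [← Matrix.star_dotProduct_star, star_star]
  rw [h2, star_mul', h4] at h3
  have h5 : (star z - z) * (star u ⬝ᵥ u) = 0 := by rw [sub_mul, h3, sub_self]
  rcases mul_eq_zero.mp h5 with h6 | h6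
  · have := congrArg Complex.im h6
    simp at this
    apply hz
    linarith
  · exact hu0 (dotProduct_star_self_eq_zero.mp h6)

lemma isUnit_sub {H : Matrix n n ℂ} (hH : H.IsHermitian) {z : ℂ} (hz : z.im ≠ 0) :
    IsUnit (H - z • (1 : Matrix n n ℂ)) := by
  rw [Matrix.isUnit_iff_isUnit_det, isUnit_iff_ne_zero]
  exact det_ne hH hz

lemma conjT_sub {H : Matrix n n ℂ} (hH : H.IsHermitian) (z : ℂ) :
    (H - z • (1 : Matrix n n ℂ))ᴴ = H - (starRingEnd ℂ z) • (1 : Matrix n n ℂ) := by
  rw [conjTranspose_sub, hH.eq, conjTranspose_smul, conjTranspose_one]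
  rfl

/-- main identities for the resolvent -/
lemma res_id {H : Matrix n n ℂ} (hH : H.IsHermitian) {z : ℂ} (hz : z.im ≠ 0) :
    let G := (H - z • (1 : Matrix n n ℂ))⁻¹
    imM G = (z.im : ℂ) • (Gᴴ * G) ∧
    (1 - ((z.im : ℂ) ^ 2) • (G * Gᴴ)).PosSemidef ∧
    (1 - ((z.im : ℂ) ^ 2) • (Gᴴ * G)).PosSemidef := by
  intro G
  set M := H - z • (1 : Matrix n n ℂ) with hM
  have hu : IsUnit M.det := isUnit_iff_ne_zero.mpr (det_ne hH hz)
  have h1 : M * G = 1 := Matrix.mul_nonsing_inv M hu
  have h2 : G * M = 1 := Matrix.nonsing_inv_mul M hu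
  have h3 : Gᴴ * Mᴴ = 1 := by rw [← conjTranspose_mul, h1, conjTranspose_one]
  have h4 : Mᴴ * Gᴴ = 1 := by rw [← conjTranspose_mul, h2, conjTranspose_one]
  have hMH : Mᴴ = H - (starRingEnd ℂ z) • (1 : Matrix n n ℂ) := conjT_sub hH z
  have hdiff : Mᴴ - M = (2 * Complex.I * z.im) • (1 : Matrix n n ℂ) := by
    rw [hMH, hM]
    have : z - starRingEnd ℂ z = 2 * Complex.I * z.im := by
      rw [Complex.sub_conj]
      push_cast
      ring
    rw [sub_sub_sub_cancel_left, ← sub_smul, this]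
  have h5 : G - Gᴴ = (2 * Complex.I * z.im) • (Gᴴ * G) := by
    have : Gᴴ * (Mᴴ - M) * G = G - Gᴴ := by
      rw [mul_sub, sub_mul, h3, one_mul, mul_assoc, h1, mul_one]
    rw [← this, hdiff, mul_smul_comm, smul_mul_assoc, mul_one]
  -- the real part
  set R := H - (z.re : ℂ) • (1 : Matrix n n ℂ) with hR
  have hRH : Rᴴ = R := by
    have := conjT_sub hH (z.re : ℂ)
    rw [Complex.conj_ofReal] at this
    exact this
  have hMR : M = R - (Complex.I * z.im) • (1 : Matrix n n ℂ) := by
    rw [hM, hR, sub_sub, ← add_smul]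
    congr 2
    conv_lhs => rw [← Complex.re_add_im z]
    rw [mul_comm Complex.I]
  have hMHR : Mᴴ = R + (Complex.I * z.im) • (1 : Matrix n n ℂ) := by
    rw [hMR, conjTranspose_sub, hRH, conjTranspose_smul, conjTranspose_one]
    have : star (Complex.I * z.im) = -(Complex.I * z.im) := by
      simp
    rw [this, neg_smul, sub_neg_eq_add]
  clear_value R
  have hI2 : (Complex.I * z.im) * (Complex.I * z.im) = -((z.im : ℂ) ^ 2) := by
    have := Complex.I_mul_I
    calc _ = (Complex.I * Complex.I) * (z.im : ℂ) ^ 2 := by ring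
      _ = _ := by rw [this]; ring
  have h6 : M * Mᴴ = R * R + ((z.im : ℂ) ^ 2) • (1 : Matrix n n ℂ) := by
    rw [hMHR, hMR, sub_mul, mul_add, mul_smul_comm, smul_mul_assoc, mul_add, mul_one, one_mul,
      mul_smul_comm, mul_one, smul_add, smul_smul, hI2, neg_smul]
    abel
  have h7 : Mᴴ * M = R * R + ((z.im : ℂ) ^ 2) • (1 : Matrix n n ℂ) := by
    rw [hMHR, hMR, add_mul, mul_sub, mul_smul_comm, smul_mul_assoc, mul_sub, mul_one, one_mul,
      mul_smul_comm, mul_one, smul_sub, smul_smul, hI2, neg_smul]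
    abel
  refine ⟨?_, ?_, ?_⟩
  · unfold imM
    rw [h5, smul_smul]
    congr 1
    have := Complex.I_ne_zero
    field_simp
  · have h8 : G * (M * Mᴴ) * Gᴴ = 1 := by
      rw [← mul_assoc, h2, one_mul, h4]
    have h9 : 1 - ((z.im : ℂ) ^ 2) • (G * Gᴴ) = (G * R) * (G * R)ᴴ := by
      rw [conjTranspose_mul, hRH]
      nth_rewrite 1 [← h8]
      rw [h6, mul_add, add_mul, mul_smul_comm, smul_mul_assoc, mul_one]
      simp only [mul_assoc]
      abel
    rw [h9]
    exact posSemidef_self_mul_conjTranspose _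
  · have h8 : Gᴴ * (Mᴴ * M) * G = 1 := by
      rw [← mul_assoc, h3, one_mul, h1]
    have h9 : 1 - ((z.im : ℂ) ^ 2) • (Gᴴ * G) = (R * G)ᴴ * (R * G) := by
      rw [conjTranspose_mul, hRH]
      nth_rewrite 1 [← h8]
      rw [h7, mul_add, add_mul, mul_smul_comm, smul_mul_assoc, mul_one]
      simp only [mul_assoc]
      abel
    rw [h9]
    exact posSemidef_conjTranspose_mul_self _

lemma inv_eq (M : Matrix n n ℂ) : M⁻¹ = (M.det)⁻¹ • M.adjugate := by
  rw [Matrix.inv_def, Ring.inverse_eq_inv']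

lemma det_diff {M : ℂ → Matrix n n ℂ} (h : ∀ i j, Differentiable ℂ fun z => M z i j) :
    Differentiable ℂ fun z => (M z).det := by
  simp only [Matrix.det_apply']
  refine Differentiable.fun_sum fun σ _ => ?_
  refine Differentiable.const_mul ?_ _
  exact Differentiable.fun_finsetProd fun i _ => h _ _

lemma adj_diff {M : ℂ → Matrix n n ℂ} (h : ∀ i j, Differentiable ℂ fun z => M z i j) (i j : n) :
    Differentiable ℂ fun z => (M z).adjugate i j := by
  simp only [Matrix.adjugate_apply]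
  apply det_diff
  intro a b
  by_cases hab : a = j
  · subst hab
    simp only [Matrix.updateRow_self]
    fun_prop
  · simp only [Matrix.updateRow_ne hab]
    exact h a b

section block

variable {Q J : Type} [AddCommGroup Q] [Fintype Q] [DecidableEq Q] [Fintype J] [DecidableEq J]

lemma ham_herm (κ : Q → ℂ) (hκ : ∀ x, κ (-x) = (starRingEnd ℂ) (κ x)) (A : Matrix J J ℂ)
    (hA : A.IsHermitian) (v : Q × J → ℝ) : (ham κ A v).IsHermitian := by
  ext a b
  rw [conjTranspose_apply]
  unfold ham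
  rw [star_add, star_add]
  congr 1
  · congr 1
    · by_cases h : a.2 = b.2
      · rw [if_pos h.symm, if_pos h, ← neg_sub a.1 b.1, hκ]
        exact Complex.conj_conj _
      · rw [if_neg (Ne.symm h), if_neg h, star_zero]
    · by_cases h : a.1 = b.1
      · rw [if_pos h.symm, if_pos h]
        exact hA.apply a.2 b.2
      · rw [if_neg (Ne.symm h), if_neg h, star_zero]
  · by_cases h : a = b
    · rw [if_pos h.symm, if_pos h, h]
      exact Complex.conj_ofReal _
    · rw [if_neg (Ne.symm h), if_neg h, star_zero]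

lemma dd_herm (κ : Q → ℂ) (hκ : ∀ x, κ (-x) = (starRingEnd ℂ) (κ x)) (v : Q × J → ℝ) (p : J) :
    (dd κ v p : Matrix Q Q ℂ).IsHermitian := by
  ext a b
  rw [conjTranspose_apply]
  unfold dd
  rw [star_add]
  congr 1
  · rw [← neg_sub a b, hκ]
    exact Complex.conj_conj _
  · by_cases h : a = b
    · rw [if_pos h.symm, if_pos h, h]
      exact Complex.conj_ofReal _
    · rw [if_neg (Ne.symm h), if_neg h, star_zero]

/-- the embedding of the block -/
def em (p : J) : Q → Q × J := fun x => (x, p)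

lemma gr_eq (κ : Q → ℂ) (A : Matrix J J ℂ) (v : Q × J → ℝ) (z : ℂ) (p : J) :
    gr κ A v z p = ((ham κ A v - z • (1 : Matrix (Q × J) (Q × J) ℂ))⁻¹).submatrix (em p) (em p) :=
  rfl

lemma imM_sub (G : Matrix (Q × J) (Q × J) ℂ) (p : J) :
    imM (G.submatrix (em p) (em p)) = (imM G).submatrix (em p) (em p) := rfl

/-- the projection on the block -/
def pr (p : J) : Matrix (Q × J) (Q × J) ℂ := Matrix.diagonal fun q => if q.2 = p then 1 else 0

lemma B_mul (G : Matrix (Q × J) (Q × J) ℂ) (p : J) :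
    (G.submatrix id (em p) : Matrix (Q × J) Q ℂ) * (G.submatrix id (em p))ᴴ = G * pr p * Gᴴ := by
  ext a b
  rw [Matrix.mul_apply, Matrix.mul_apply, Fintype.sum_prod_type]
  refine Finset.sum_congr rfl fun x _ => ?_
  unfold pr
  simp only [Matrix.mul_diagonal, Matrix.submatrix_apply, id, Matrix.conjTranspose_apply, em]
  rw [Finset.sum_eq_single p]
  · simp
  · intro j _ hj
    simp [hj]
  · intro h
    exact absurd (Finset.mem_univ _) h

lemma block_psd {G : Matrix (Q × J) (Q × J) ℂ} {η : ℝ} (hη : 0 < η)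
    (h : (1 - ((η : ℂ) ^ 2) • (G * Gᴴ)).PosSemidef) (p : J) :
    (1 - ((η : ℂ) ^ 2) • (G * pr p * Gᴴ)).PosSemidef := by
  have h1 : (1 - pr p : Matrix (Q × J) (Q × J) ℂ).PosSemidef := by
    have h2 : (1 - pr p : Matrix (Q × J) (Q × J) ℂ) =
        Matrix.diagonal fun q => if q.2 = p then 0 else 1 := by
      unfold pr
      rw [← Matrix.diagonal_one, Matrix.diagonal_sub]
      congr 1
      funext q
      split_ifs <;> simp
    rw [h2]
    apply Matrix.PosSemidef.diagonal
    intro q
    show (0 : ℂ) ≤ if q.2 = p then 0 else 1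
    split_ifs
    · exact le_rfl
    · exact zero_le_one
  have h3 : (G * (1 - pr p) * Gᴴ).PosSemidef := h1.mul_mul_conjTranspose_same G
  have hη2 : (0 : ℂ) ≤ (η : ℂ) ^ 2 := by
    have : (0 : ℝ) ≤ η ^ 2 := by positivity
    exact_mod_cast this
  have h4 : (((η : ℂ) ^ 2) • (G * (1 - pr p) * Gᴴ)).PosSemidef := h3.smul hη2
  have h5 := h.add h4
  have h6 : (1 - ((η : ℂ) ^ 2) • (G * Gᴴ)) + ((η : ℂ) ^ 2) • (G * (1 - pr p) * Gᴴ) =
      1 - ((η : ℂ) ^ 2) • (G * pr p * Gᴴ) := by
    rw [mul_sub, sub_mul, mul_one, smul_sub]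
    abel
  rw [h6] at h5
  exact h5

theorem main : S_GR := by
  intro Q J _ _ _ _ _ κ hκ A hA p
  have hH : ∀ v : Q × J → ℝ, (ham κ A v).IsHermitian := ham_herm κ hκ A hA
  refine ⟨hH, fun v => dd_herm κ hκ v p, ?_, ?_, ?_, ?_⟩
  · intro z hz
    have hc : Continuous fun v : Q × J → ℝ => ham κ A v - z • (1 : Matrix (Q × J) (Q × J) ℂ) := by
      refine Continuous.sub ?_ continuous_const
      refine continuous_pi fun a => continuous_pi fun b => ?_
      unfold ham
      refine Continuous.add continuous_const ?_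
      by_cases h : a = b
      · simp only [if_pos h]
        exact Complex.continuous_ofReal.comp (continuous_apply a)
      · simp only [if_neg h]
        exact continuous_const
    have h1 : Continuous fun v : Q × J → ℝ =>
        (ham κ A v - z • (1 : Matrix (Q × J) (Q × J) ℂ))⁻¹ := by
      simp only [inv_eq]
      exact (hc.matrix_det.inv₀ fun v => det_ne (hH v) hz).smul hc.matrix_adjugate
    refine continuous_pi fun x => continuous_pi fun y => ?_
    unfold gr
    exact (continuous_apply (y, p)).comp ((continuous_apply (x, p)).comp h1)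
  · intro z hz v
    obtain ⟨h1, h2, h3⟩ := res_id (hH v) hz.ne'
    set G := (ham κ A v - z • (1 : Matrix (Q × J) (Q × J) ℂ))⁻¹ with hG
    have hηc : (0 : ℂ) ≤ (z.im : ℂ) := by exact_mod_cast hz.le
    have hηne : (z.im : ℂ) ≠ 0 := by exact_mod_cast hz.ne'
    have hgr : gr κ A v z p = G.submatrix (em p) (em p) := rfl
    set B : Matrix (Q × J) Q ℂ := G.submatrix id (em p) with hB
    have hJ : imM (gr κ A v z p) = (z.im : ℂ) • (Bᴴ * B) := by
      rw [hgr, imM_sub, h1]
      rfl
    refine ⟨?_, ?_, ?_⟩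
    · rw [hJ]
      exact (posSemidef_conjTranspose_mul_self B).smul hηc
    · have h4 : (z.im : ℂ)⁻¹ • imM (gr κ A v z p) - imM (gr κ A v z p) * imM (gr κ A v z p) =
          Bᴴ * (1 - ((z.im : ℂ) ^ 2) • (B * Bᴴ)) * B := by
        rw [hJ, smul_smul, inv_mul_cancel₀ hηne, one_smul, Matrix.mul_sub, Matrix.sub_mul,
          Matrix.mul_one]
        congr 1
        rw [Matrix.smul_mul, Matrix.mul_smul, Matrix.mul_smul, Matrix.smul_mul, smul_smul, ← sq]
        congr 1
        simp only [Matrix.mul_assoc]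
      rw [h4, B_mul]
      exact (block_psd hz h2 p).conjTranspose_mul_mul_same B
    · intro u
      set w : Q × J → ℂ := fun q => if q.2 = p then u q.1 else 0 with hw
      have h5 : ∀ x, ((gr κ A v z p).mulVec u) x = (G *ᵥ w) (x, p) := by
        intro x
        rw [hgr, Matrix.mulVec, Matrix.mulVec, dotProduct, dotProduct, Fintype.sum_prod_type]
        refine Finset.sum_congr rfl fun y _ => ?_
        rw [Finset.sum_eq_single p]
        · simp [hw, em]
        · intro j _ hj
          simp [hw, hj]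
        · intro h
          exact absurd (Finset.mem_univ _) h
      have h6 : ∑ q, ‖w q‖ ^ 2 = ∑ x, ‖u x‖ ^ 2 := by
        rw [Fintype.sum_prod_type]
        refine Finset.sum_congr rfl fun y _ => ?_
        rw [Finset.sum_eq_single p]
        · simp [hw]
        · intro j _ hj
          simp [hw, hj]
        · intro h
          exact absurd (Finset.mem_univ _) h
      have h7 : ∑ x, ‖((gr κ A v z p).mulVec u) x‖ ^ 2 ≤ ∑ q, ‖(G *ᵥ w) q‖ ^ 2 := by
        rw [Fintype.sum_prod_type]
        refine Finset.sum_le_sum fun x _ => ?_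
        rw [h5]
        exact Finset.single_le_sum (f := fun j => ‖(G *ᵥ w) (x, j)‖ ^ 2)
          (fun j _ => by positivity) (Finset.mem_univ p)
      have h8 : z.im ^ 2 * ∑ q, ‖(G *ᵥ w) q‖ ^ 2 ≤ ∑ q, ‖w q‖ ^ 2 := by
        have h9 := h3.dotProduct_mulVec_nonneg w
        rw [Matrix.sub_mulVec, Matrix.one_mulVec, Matrix.smul_mulVec, dotProduct_sub,
          dotProduct_smul, smul_eq_mul, ← Matrix.mulVec_mulVec, Matrix.dotProduct_mulVec,
          ← Matrix.star_mulVec] at h9
        have nrm : ∀ y : Q × J → ℂ, star y ⬝ᵥ y = ((∑ q, ‖y q‖ ^ 2 : ℝ) : ℂ) := by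
          intro y
          rw [dotProduct]
          push_cast
          refine Finset.sum_congr rfl fun q _ => ?_
          rw [Pi.star_apply]
          exact Complex.conj_mul' (y q)
        rw [nrm, nrm] at h9
        have h10 : (0 : ℂ) ≤ ((∑ q, ‖w q‖ ^ 2 - z.im ^ 2 * ∑ q, ‖(G *ᵥ w) q‖ ^ 2 : ℝ) : ℂ) := by
          refine h9.trans (le_of_eq ?_)
          push_cast
          rfl
        have h11 : (0 : ℝ) ≤ (∑ q, ‖w q‖ ^ 2 - z.im ^ 2 * ∑ q, ‖(G *ᵥ w) q‖ ^ 2 : ℝ) := by
          exact_mod_cast h10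
        linarith
      rw [h6] at h8
      refine h7.trans ?_
      rw [one_div, inv_pow, ← div_eq_inv_mul, le_div_iff₀ (by positivity), mul_comm]
      exact h8
  · intro v x y z hz
    have hz' : z.im ≠ 0 := (show 0 < z.im from hz).ne'
    have hd : ∀ i j, Differentiable ℂ fun z : ℂ =>
        (ham κ A v - z • (1 : Matrix (Q × J) (Q × J) ℂ)) i j := by
      intro i j
      simp only [Matrix.sub_apply, Matrix.smul_apply, smul_eq_mul]
      fun_prop
    have h1 : (fun z : ℂ => gr κ A v z p x y) = fun z =>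
        ((ham κ A v - z • (1 : Matrix (Q × J) (Q × J) ℂ)).det)⁻¹ *
          (ham κ A v - z • (1 : Matrix (Q × J) (Q × J) ℂ)).adjugate (x, p) (y, p) := by
      funext z
      unfold gr
      rw [inv_eq]
      rfl
    rw [h1]
    apply DifferentiableAt.differentiableWithinAt
    exact ((det_diff hd z).inv (det_ne (hH v) hz')).mul (adj_diff hd _ _ z)
  · intro z hz v
    exact isUnit_sub (hH v) hz

end block

end Pool.Agent.W54.GKGr
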