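import Pool.Agent.W823.QT.Stm

set_option autoImplicit false

namespace Pool.Agent.W54.QTLAPC

open MeasureTheory ProbabilityTheory Filter Topology Pool.Agent.W845.Traps Pool.Agent.W823.QT
open scoped ENNReal NNReal

universe u v

theorem En_zero' : En 0 = 1 := by unfold En; simp

theorem En_add' (a b : ℝ≥0∞) : En (a + b) = En a * En b := by
  unfold En
  rw [← EReal.exp_add, EReal.coe_ennreal_add, EReal.neg_add]
  · rfl
  · left; exact EReal.coe_ennreal_ne_bot a
  · right; exact EReal.coe_ennreal_ne_bot b

theorem En_mul_nat (a : ℝ≥0∞) (n : ℕ) : En (a * n) = En a ^ n := by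
  induction n with
  | zero => simp [En_zero']
  | succ n ih =>
    rw [Nat.cast_succ, mul_add, mul_one, En_add', ih, pow_succ]

theorem En_card {ι : Type*} (s : Finset ι) (p : ι → Prop) [DecidablePred p] (a : ℝ≥0∞) :
    En (a * ((s.filter p).card : ℝ≥0∞)) = ∏ i ∈ s, (if p i then En a else 1) := by
  rw [En_mul_nat, ← Finset.prod_const, Finset.prod_filter]

theorem main (h1 : LAP_T.{u}) (h2 : MEAS_T) : LAPC_T.{u} := by
  intro d Ω _ P _ ρ ν N Y hT θ h m x x'
  constructor
  · have h3 := h1 d Ω P ρ ν N Y hT h m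
      (fun y w => θ * (((Finset.Icc 1 m).filter fun k : ℕ => y + w k = x k).card : ℝ≥0∞)) (by
        intro y w w' hw
        have : (Finset.Icc 1 m).filter (fun k : ℕ => y + w k = x k)
            = (Finset.Icc 1 m).filter (fun k : ℕ => y + w' k = x k) := by
          apply Finset.filter_congr
          intro k hk
          rw [hw k (Finset.mem_Icc.1 hk).2]
        simp only [this])
    have h4 : ∀ ω, θ * hitsg N Y h m x ω = ∑' y : Fin d → ℤ, ∑ j ∈ Finset.range (N y ω),
        θ * (((Finset.Icc 1 m).filter fun k : ℕ => y + Y y j ((k : ℝ≥0) * h) ω = x k).card : ℝ≥0∞) := by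
      intro ω
      unfold hitsg
      rw [← ENNReal.tsum_mul_left]
      refine tsum_congr fun y => ?_
      rw [Finset.mul_sum]
    have h5 : Cn (En θ) (stepLaw d ρ h) m x = ∑' y : Fin d → ℤ, (1 - ∫⁻ w, En (θ *
        (((Finset.Icc 1 m).filter fun k : ℕ => y + pos w k = x k).card : ℝ≥0∞)) ∂(iid (stepLaw d ρ h))) := by
      unfold Cn
      refine tsum_congr fun y => ?_
      congr 1
      refine lintegral_congr fun w => ?_
      rw [En_card]
    rw [h5, ← h3]
    refine lintegral_congr fun ω => ?_
    rw [h4]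
  · have h3 := h1 d Ω P ρ ν N Y hT h m
      (fun y w => θ * (((Finset.Icc 1 m).filter fun k : ℕ => y + w k = x k).card : ℝ≥0∞)
        + θ * (((Finset.Icc 1 m).filter fun k : ℕ => y + w k = x' k).card : ℝ≥0∞)) (by
        intro y w w' hw
        have : (Finset.Icc 1 m).filter (fun k : ℕ => y + w k = x k)
            = (Finset.Icc 1 m).filter (fun k : ℕ => y + w' k = x k) := by
          apply Finset.filter_congr
          intro k hk
          rw [hw k (Finset.mem_Icc.1 hk).2]
        have h' : (Finset.Icc 1 m).filter (fun k : ℕ => y + w k = x' k)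
            = (Finset.Icc 1 m).filter (fun k : ℕ => y + w' k = x' k) := by
          apply Finset.filter_congr
          intro k hk
          rw [hw k (Finset.mem_Icc.1 hk).2]
        simp only [this, h'])
    have h4 : ∀ x : ℕ → Fin d → ℤ, ∀ ω, θ * hitsg N Y h m x ω = ∑' y : Fin d → ℤ, ∑ j ∈ Finset.range (N y ω),
        θ * (((Finset.Icc 1 m).filter fun k : ℕ => y + Y y j ((k : ℝ≥0) * h) ω = x k).card : ℝ≥0∞) := by
      intro x ω
      unfold hitsg
      rw [← ENNReal.tsum_mul_left]
      refine tsum_congr fun y => ?_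
      rw [Finset.mul_sum]
    have h5 : C2 (En θ) (stepLaw d ρ h) m x x' = ∑' y : Fin d → ℤ, (1 - ∫⁻ w, En (θ *
        (((Finset.Icc 1 m).filter fun k : ℕ => y + pos w k = x k).card : ℝ≥0∞)
        + θ * (((Finset.Icc 1 m).filter fun k : ℕ => y + pos w k = x' k).card : ℝ≥0∞))
          ∂(iid (stepLaw d ρ h))) := by
      unfold C2
      refine tsum_congr fun y => ?_
      congr 1
      refine lintegral_congr fun w => ?_
      rw [En_add', En_card, En_card, Finset.prod_mul_distrib]
    rw [h5, ← h3]
    refine lintegral_congr fun ω => ?_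
    rw [h4, h4, ← En_add', ← ENNReal.tsum_add]
    congr 1
    refine tsum_congr fun y => ?_
    rw [← Finset.sum_add_distrib]

end Pool.Agent.W54.QTLAPC
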